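import Pool.Agent.H124R2.Heesch.Corona

/-!
# Heesch's problem on multiple surroundings (planar bodies): the answer is negative

The definitions `E`, `IsBody`, `Congruent`, `IsPacking`, `Tiles` are in
`Pool.Agent.H124R2.Heesch.Defs`.
-/

namespace Pool.Agent.Results.MP_6145c0_co.Unbounded

open Pool.Agent.H124R2.Heesch Set

/-- `C` is surrounded `k` times: there are finite packings `{C} = 𝒞₀ ⊂ 𝒞₁ ⊂ … ⊂ 𝒞ₖ` by congruent
copies of `C` such that for `i = 1, …, k` the closure of the complement of the union of `𝒞ᵢ` meets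
no member of `𝒞ᵢ₋₁`. -/
def SurroundedByPackings (C : Set (E 2)) (k : ℕ) : Prop :=
  ∃ 𝒞 : ℕ → Set (Set (E 2)), 𝒞 0 = {C} ∧ (∀ i ≤ k, (𝒞 i).Finite ∧ IsPacking C (𝒞 i)) ∧
    (∀ i < k, 𝒞 i ⊂ 𝒞 (i + 1)) ∧
    ∀ i, 1 ≤ i → i ≤ k → ∀ B ∈ 𝒞 (i - 1), closure (⋃₀ 𝒞 i)ᶜ ∩ B = ∅

lemma finite_BZ (n j : ℕ) : (BZ n j).Finite := by
  have : BZ n j ⊆ Set.Icc (fun _ => -(j : ℤ)) (fun _ => (j : ℤ)) := by
    intro z hz
    exact ⟨fun i => (abs_le.1 (hz i)).1, fun i => (abs_le.1 (hz i)).2⟩
  exact (Set.finite_Icc _ _).subset this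

lemma surroundedByPackings (k : ℕ) : SurroundedByPackings (Tile (2 * k + 2) : Set (E 2)) k := by
  refine ⟨fun j => Tr (2 * k + 2) '' BZ 2 j, ?_, ?_, ?_, ?_⟩
  · beta_reduce
    have : BZ 2 0 = {0} := by
      ext z
      simp only [BZ, Set.mem_ofPred_eq, Set.mem_singleton_iff, Nat.cast_zero, abs_nonpos_iff]
      constructor
      · intro h; funext i; exact h i
      · rintro rfl i; rfl
    rw [this, image_singleton, Tr_zero]
  · intro i hi
    refine ⟨(finite_BZ 2 i).image _, ?_, ?_⟩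
    · rintro _ ⟨z, -, rfl⟩
      exact congruent_Tr _ z
    · refine (isPacking_Pat (n := 2) k).2.mono ?_
      exact image_mono (BZ_mono hi)
  · intro i hi
    refine ⟨image_mono (BZ_mono (Nat.le_succ i)), fun hsub => ?_⟩
    have h1 : (fun _ => ((i : ℤ) + 1) : Fin 2 → ℤ) ∈ BZ 2 (i + 1) := by
      intro l
      push_cast
      rw [abs_of_nonneg (by positivity)]
    obtain ⟨z, hz, hzz⟩ := hsub (mem_image_of_mem _ h1)
    have hne : z ≠ fun _ => ((i : ℤ) + 1) := by
      rintro rfl
      have h9 : (i : ℤ) + 1 ≤ i := (abs_le.1 (hz 0)).2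
      omega
    have hdis : Disjoint (interior (Tr (2 * k + 2) z : Set (E 2)))
        (interior (Tr (2 * k + 2) fun _ => ((i : ℤ) + 1))) := by
      refine disjoint_Tr hne ?_
      have h2 := BZ_sub (BZ_mono (by omega : i ≤ k) hz) (BZ_mono (by omega : i + 1 ≤ k) h1) 0
      push_cast
      linarith
    rw [hzz, disjoint_self] at hdis
    have h3 := (isBody_tile (n := 2) (2 * k + 2)).2.1
    have h4 : (interior (Tr (2 * k + 2) (fun _ => ((i : ℤ) + 1)) : Set (E 2))).Nonempty := by
      rw [Tr_eq_image]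
      have h5 := (IsometryEquiv.addRight
        (vec (fun _ => ((i : ℤ) + 1)) : E 2)).toHomeomorph.image_interior
        (Tile (2 * k + 2) : Set (E 2))
      have h6 := h3.image (IsometryEquiv.addRight
        (vec (fun _ => ((i : ℤ) + 1)) : E 2)).toHomeomorph
      rw [h5] at h6
      exact h6
    rw [hdis] at h4
    simp at h4
  · intro i hi1 hik B hB
    obtain ⟨j, rfl⟩ : ∃ j, i = j + 1 := ⟨i - 1, by omega⟩
    rw [Nat.add_sub_cancel] at hB
    obtain ⟨z, hz, rfl⟩ := hB
    rw [closure_compl, sUnion_image]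
    have h := Tr_subset_interior (K := 2 * k + 2) hz
    ext x
    simp only [mem_inter_iff, mem_compl_iff, mem_empty_iff_false, iff_false, not_and]
    exact fun hx hx' => hx (h hx')

/-- For every `k` there is a planar body that can be surrounded `k` times by congruent copies of
itself but does not tile the plane. -/
theorem result : ∀ k : ℕ, ∃ C : Set (E 2),
    IsBody C ∧ SurroundedByPackings C k ∧ ¬ Tiles C :=
  fun k => ⟨Tile (2 * k + 2), isBody_tile _, surroundedByPackings k, not_tiles (by omega)⟩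

end Pool.Agent.Results.MP_6145c0_co.Unbounded
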